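import Pool.Agent.H83.D3N.Targets

/-!
MP_ee74d2_an, dimension 3: the caps near a circle (line, point) in a disc.
-/

set_option autoImplicit false

namespace Pool.Agent.H74.D3N.CIR

open Pool.Agent.H83.D3N
open Pool.Agent.H83.G (Z E ctr)
open Pool.Agent.H82.LB (CirZ)
open scoped RealInnerProductSpace

theorem int_card (S : Finset ℤ) (a b : ℝ) (hab : a ≤ b) (h : ∀ n ∈ S, a ≤ (n : ℝ) ∧ (n : ℝ) ≤ b) :
    (S.card : ℝ) ≤ b - a + 1 := by
  rcases S.eq_empty_or_nonempty with rfl | ⟨n, hn⟩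
  · simp only [Finset.card_empty, Nat.cast_zero]; linarith
  · have h1 : S ⊆ Finset.Icc ⌈a⌉ ⌊b⌋ := fun m hm => by
      rw [Finset.mem_Icc]
      exact ⟨Int.ceil_le.2 (h m hm).1, Int.le_floor.2 (h m hm).2⟩
    have h2 := Finset.card_le_card h1
    have h3 := Finset.mem_Icc.1 (h1 hn)
    rw [Int.card_Icc] at h2
    have h4 : ((⌊b⌋ + 1 - ⌈a⌉).toNat : ℤ) = ⌊b⌋ + 1 - ⌈a⌉ := Int.toNat_of_nonneg (by linarith)
    have h5 : (S.card : ℤ) ≤ ⌊b⌋ + 1 - ⌈a⌉ := by
      rw [← h4]; exact_mod_cast h2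
    have h6 : (S.card : ℝ) ≤ (⌊b⌋ : ℝ) + 1 - ⌈a⌉ := by exact_mod_cast h5
    have h7 := Int.floor_le b
    have h8 := Int.le_ceil a
    linarith

theorem diam_card (S : Finset ℤ) (h : ∀ m ∈ S, ∀ n ∈ S, n - m ≤ 36) : S.card ≤ 37 := by
  rcases S.eq_empty_or_nonempty with rfl | hne
  · simp
  · have h1 : S ⊆ Finset.Icc (S.min' hne) (S.min' hne + 36) := fun n hn => by
      rw [Finset.mem_Icc]
      refine ⟨Finset.min'_le _ _ hn, ?_⟩
      have := h _ (Finset.min'_mem S hne) n hn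
      linarith
    have h2 := Finset.card_le_card h1
    rw [Int.card_Icc] at h2
    have h3 : (S.min' hne + 36 + 1 - S.min' hne).toNat = 37 := by
      have : S.min' hne + 36 + 1 - S.min' hne = 37 := by ring
      rw [this]; rfl
    rwa [h3] at h2

theorem zero_eq {V : Z 2} {η : E 2} (h : η ∈ CirZ V) :
    V.1 + (V.2.1 0 * η 0 + V.2.1 1 * η 1) + V.2.2 * (η 0 ^ 2 + η 1 ^ 2) = 0 := by
  have h1 : V.1 + ⟪V.2.1, η⟫ + V.2.2 * ‖η‖ ^ 2 = 0 := h
  rw [EuclideanSpace.norm_sq_eq, PiLp.inner_apply, Fin.sum_univ_two, Fin.sum_univ_two] at h1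
  simp only [Real.norm_eq_abs, sq_abs, RCLike.inner_apply, conj_trivial] at h1
  linarith

/-- the gradient -/
def gr' (V : Z 2) (η : E 2) (k : Fin 2) : ℝ := V.2.1 k + 2 * V.2.2 * η k

theorem two_sum {i j : Fin 2} (hij : i ≠ j) (f : Fin 2 → ℝ) : f 0 + f 1 = f i + f j := by
  fin_cases i <;> fin_cases j
  · exact absurd rfl hij
  · rfl
  · exact add_comm _ _
  · exact absurd rfl hij

theorem all_of {i j : Fin 2} (hij : i ≠ j) {P : Fin 2 → Prop} (hi : P i) (hj : P j) (k : Fin 2) :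
    P k := by
  fin_cases i <;> fin_cases j <;> fin_cases k
  all_goals first
    | exact absurd rfl hij
    | exact hi
    | exact hj

theorem pair {V : Z 2} (hV : V ≠ 0) {a b : E 2} (ha : a ∈ CirZ V) (hb : b ∈ CirZ V)
    {i j : Fin 2} (hij : i ≠ j) {s : ℝ} (hs : |s| = 1) (h1 : |gr' V a i| ≤ |gr' V a j|)
    (h2 : |gr' V b i| ≤ |gr' V b j|) (h3 : 0 ≤ s * gr' V a j) (h4 : 0 ≤ s * gr' V b j) :
    |a j - b j| ≤ |a i - b i| := by
  have e1 : s * gr' V a j = |gr' V a j| := by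
    rw [← abs_of_nonneg h3, abs_mul, hs, one_mul]
  have e2 : s * gr' V b j = |gr' V b j| := by
    rw [← abs_of_nonneg h4, abs_mul, hs, one_mul]
  have e3 : |gr' V a j + gr' V b j| = |gr' V a j| + |gr' V b j| := by
    rw [← e1, ← e2, ← mul_add]
    have : |gr' V a j + gr' V b j| = |s * (gr' V a j + gr' V b j)| := by
      rw [abs_mul, hs, one_mul]
    rw [this, abs_of_nonneg (by rw [mul_add]; linarith)]
  have za := zero_eq ha
  have zb := zero_eq hb
  have e4 : (gr' V a i + gr' V b i) * (a i - b i) + (gr' V a j + gr' V b j) * (a j - b j) = 0 := by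
    rw [← two_sum hij (fun k => (gr' V a k + gr' V b k) * (a k - b k))]
    simp only [gr']
    linear_combination 2 * za - 2 * zb
  have e5 : |gr' V a j + gr' V b j| * |a j - b j| = |gr' V a i + gr' V b i| * |a i - b i| := by
    rw [← abs_mul, ← abs_mul]
    have : (gr' V a j + gr' V b j) * (a j - b j) = -((gr' V a i + gr' V b i) * (a i - b i)) := by
      linarith
    rw [this, abs_neg]
  have e6 : |gr' V a i + gr' V b i| ≤ |gr' V a j| + |gr' V b j| :=
    (abs_add_le _ _).trans (add_le_add h1 h2)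
  rw [e3] at e5
  have a1 := abs_nonneg (gr' V a j)
  have a2 := abs_nonneg (gr' V b j)
  rcases (add_nonneg a1 a2).eq_or_lt with h0 | h0
  · -- both gradients vanish
    have b1 : |gr' V a j| = 0 := by linarith
    have b2 : |gr' V b j| = 0 := by linarith
    have b3 : gr' V a j = 0 := abs_eq_zero.1 b1
    have b4 : gr' V b j = 0 := abs_eq_zero.1 b2
    have b5 : gr' V a i = 0 := abs_eq_zero.1 (le_antisymm (by linarith) (abs_nonneg _))
    have b6 : a j = b j := by
      by_cases h22 : V.2.2 = 0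
      · exfalso
        apply hV
        have c1 : ∀ k, gr' V a k = 0 := all_of hij b5 b3
        have c2 : ∀ k, V.2.1 k = 0 := fun k => by
          have := c1 k
          simp only [gr', h22] at this
          linarith
        have c3 : V.1 = 0 := by
          rw [c2 0, c2 1, h22] at za
          linarith
        have c4 : V.2.1 = 0 := by
          ext k
          rw [c2 k]; rfl
        exact Prod.ext c3 (Prod.ext c4 h22)
      · simp only [gr'] at b3 b4
        have : 2 * V.2.2 * (a j - b j) = 0 := by linarith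
        rcases mul_eq_zero.1 this with h | h
        · exact absurd (by linarith : V.2.2 = 0) h22
        · linarith
    rw [b6, sub_self, abs_zero]
    exact abs_nonneg _
  · have : (|gr' V a j| + |gr' V b j|) * |a j - b j| ≤
        (|gr' V a j| + |gr' V b j|) * |a i - b i| := by
      rw [e5]
      exact mul_le_mul_of_nonneg_right e6 (abs_nonneg _)
    exact le_of_mul_le_mul_left this h0

theorem ctr_apply (K : ℝ) (hK : 0 < K) (t : Fin 2 → ℤ) (k : Fin 2) :
    (ctr K⁻¹ t) k * (3 * K) = t k := by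
  unfold ctr
  simp only [PiLp.smul_apply, smul_eq_mul]
  push_cast
  field_simp
  ring

theorem coord_le (v : E 2) (k : Fin 2) : |v k| ≤ ‖v‖ := by
  rw [← Real.norm_eq_abs]
  exact PiLp.norm_apply_le v k

theorem class_bound {K r : ℝ} {x : E 2} {V : Z 2} (hV : V ≠ 0) (hK : 1 ≤ K) (hr : 0 ≤ r)
    (T : Finset (Fin 2 → ℤ)) (η : (Fin 2 → ℤ) → E 2) (i j : Fin 2) (hij : i ≠ j) (s : ℝ)
    (hs : |s| = 1) (h : ∀ t ∈ T, ‖ctr K⁻¹ t - x‖ ≤ r ∧ η t ∈ CirZ V ∧
      ‖ctr K⁻¹ t - η t‖ ≤ 3 / K ∧ |gr' V (η t) i| ≤ |gr' V (η t) j| ∧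
      0 ≤ s * gr' V (η t) j) : (T.card : ℝ) ≤ 37 * (6 * r * K + 1) := by
  classical
  have hK0 : 0 < K := by linarith
  have h1 : ∀ a ∈ T.image (fun t => t i), (T.filter fun t => t i = a).card ≤ 37 := by
    intro a _
    have hinj : Set.InjOn (fun t : Fin 2 → ℤ => t j) (T.filter fun t => t i = a : Finset _) := by
      intro t ht t' ht' htt
      rw [Finset.mem_coe, Finset.mem_filter] at ht ht'
      funext k
      exact all_of hij (P := fun k => t k = t' k) (ht.2.trans ht'.2.symm) htt k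
    rw [← Finset.card_image_of_injOn hinj]
    refine diam_card _ ?_
    intro m hm n hn
    obtain ⟨t, ht, rfl⟩ := Finset.mem_image.1 hm
    obtain ⟨t', ht', rfl⟩ := Finset.mem_image.1 hn
    rw [Finset.mem_filter] at ht ht'
    obtain ⟨-, p1, p2, p3, p4⟩ := h t ht.1
    obtain ⟨-, q1, q2, q3, q4⟩ := h t' ht'.1
    have hp := pair hV p1 q1 hij hs p3 q3 p4 q4
    have c1 := ctr_apply K hK0 t i
    have c2 := ctr_apply K hK0 t' i
    have c3 := ctr_apply K hK0 t j
    have c4 := ctr_apply K hK0 t' j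
    have hi : (ctr K⁻¹ t) i = (ctr K⁻¹ t') i := by
      have : (ctr K⁻¹ t) i * (3 * K) = (ctr K⁻¹ t') i * (3 * K) := by
        rw [c1, c2, ht.2, ht'.2]
      exact mul_right_cancel₀ (by positivity) this
    have d1 := abs_le.1 ((coord_le _ i).trans p2)
    have d2 := abs_le.1 ((coord_le _ i).trans q2)
    have d3 := abs_le.1 ((coord_le _ j).trans p2)
    have d4 := abs_le.1 ((coord_le _ j).trans q2)
    simp only [PiLp.sub_apply] at d1 d2 d3 d4
    have f1 : |η t i - η t' i| ≤ 6 / K := by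
      have : 6 / K = 3 / K + 3 / K := by ring
      rw [abs_le, this]
      constructor <;> linarith [d1.1, d1.2, d2.1, d2.2]
    have f2 := abs_le.1 (hp.trans f1)
    have f3 : (ctr K⁻¹ t') j - (ctr K⁻¹ t) j ≤ 12 / K := by
      have e1 : 12 / K = 6 / K + 3 / K + 3 / K := by ring
      rw [e1]
      linarith [d3.1, d3.2, d4.1, d4.2, f2.1, f2.2]
    have f4 : ((t' j : ℝ) - t j) ≤ 36 := by
      rw [← c3, ← c4, ← sub_mul]
      calc ((ctr K⁻¹ t') j - (ctr K⁻¹ t) j) * (3 * K) ≤ 12 / K * (3 * K) := by gcongr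
        _ = 36 := by field_simp; norm_num
    exact_mod_cast f4
  have h2 := Finset.card_le_mul_card_image T 37 h1
  have h3 : ((T.image (fun t => t i)).card : ℝ) ≤ 3 * K * (x i + r) - 3 * K * (x i - r) + 1 := by
    refine int_card _ _ _ (by nlinarith) ?_
    intro n hn
    obtain ⟨t, ht, rfl⟩ := Finset.mem_image.1 hn
    have g1 := abs_le.1 ((coord_le _ i).trans (h t ht).1)
    simp only [PiLp.sub_apply] at g1
    have c1 := ctr_apply K hK0 t i
    rw [← c1]
    constructor <;> nlinarith [g1.1, g1.2]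
  have h4 : (T.card : ℝ) ≤ 37 * ((T.image (fun t => t i)).card : ℝ) := by exact_mod_cast h2
  linarith

theorem pf_CIR : T_CIR := by
  classical
  refine ⟨888, by norm_num, ?_⟩
  intro K r x V T hK hr hV h
  have hex : ∀ t : Fin 2 → ℤ, ∃ η : E 2, t ∈ T → η ∈ CirZ V ∧ ‖ctr K⁻¹ t - η‖ ≤ 3 / K := by
    intro t
    by_cases ht : t ∈ T
    · obtain ⟨-, η, h1, h2⟩ := h t ht
      exact ⟨η, fun _ => ⟨h1, h2⟩⟩
    · exact ⟨0, fun h => absurd h ht⟩
  choose η hη using hex
  have hb : ∀ (i j : Fin 2) (s : ℝ), i ≠ j → |s| = 1 →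
      ((T.filter fun t => |gr' V (η t) i| ≤ |gr' V (η t) j| ∧
        0 ≤ s * gr' V (η t) j).card : ℝ) ≤ 37 * (6 * r * K + 1) := by
    intro i j s hij hs
    refine class_bound (x := x) hV hK hr _ η i j hij s hs fun t ht => ?_
    rw [Finset.mem_filter] at ht
    exact ⟨(h t ht.1).1, (hη t ht.1).1, (hη t ht.1).2, ht.2.1, ht.2.2⟩
  have h1 := hb 0 1 1 (by decide) (by norm_num)
  have h2 := hb 0 1 (-1) (by decide) (by norm_num)
  have h3 := hb 1 0 1 (by decide) (by norm_num)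
  have h4 := hb 1 0 (-1) (by decide) (by norm_num)
  set A := T.filter fun t => |gr' V (η t) 0| ≤ |gr' V (η t) 1| ∧ 0 ≤ 1 * gr' V (η t) 1
  set B := T.filter fun t => |gr' V (η t) 0| ≤ |gr' V (η t) 1| ∧ 0 ≤ -1 * gr' V (η t) 1
  set C := T.filter fun t => |gr' V (η t) 1| ≤ |gr' V (η t) 0| ∧ 0 ≤ 1 * gr' V (η t) 0
  set D := T.filter fun t => |gr' V (η t) 1| ≤ |gr' V (η t) 0| ∧ 0 ≤ -1 * gr' V (η t) 0
  have hsub : T ⊆ (A ∪ B) ∪ (C ∪ D) := by
    intro t ht
    simp only [A, B, C, D, Finset.mem_union, Finset.mem_filter]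
    rcases le_total |gr' V (η t) 0| |gr' V (η t) 1| with g | g
    · rcases le_total 0 (gr' V (η t) 1) with g' | g'
      · exact Or.inl (Or.inl ⟨ht, g, by linarith⟩)
      · exact Or.inl (Or.inr ⟨ht, g, by linarith⟩)
    · rcases le_total 0 (gr' V (η t) 0) with g' | g'
      · exact Or.inr (Or.inl ⟨ht, g, by linarith⟩)
      · exact Or.inr (Or.inr ⟨ht, g, by linarith⟩)
  have hc : T.card ≤ A.card + B.card + (C.card + D.card) :=
    ((Finset.card_le_card hsub).trans (Finset.card_union_le _ _)).trans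
      (add_le_add (Finset.card_union_le _ _) (Finset.card_union_le _ _))
  have hc' : (T.card : ℝ) ≤ A.card + B.card + (C.card + D.card) := by exact_mod_cast hc
  have hK0 : 0 ≤ r * K := by positivity
  linarith

end Pool.Agent.H74.D3N.CIR
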